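import Mathlib
import Pool.Agent.Helper57.MT.Main

/-!
# Prescribed clusters of primes in deserts of record size

Problem MP_69be96_nt, for the actual primes and without any hypothesis.  Let
`R(x) = (log x) (log_2 x)^2 (log_4 x) / (log_3 x)^2`, where `log_j` is the `j`-fold iterated
logarithm.

There is an absolute constant `c > 0` such that for every `K ≥ 1`, all large `x` and EVERY admissible
set `H` of `K` integers of the interval `[0, c R(x)]` (admissible: `H` misses a residue class modulo
every prime; `H` may depend on `x`) at least `x ^ (1 - 1 / (log log x)^2)` of the integers `m ≤ x`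
have the following two properties:

* every prime of the interval `[m, m + c R(x)]` is `m + h` for some `h ∈ H`;
* `m + h` is prime for more than `c log K` of the `h ∈ H`.

So the theorem of Maynard and Tao, with an arbitrary admissible set and with the number `c log K` of
primes, holds inside windows of the record length `c R(x)` whose other integers are all composite.
The constant `c` depends neither on `K` nor on `H`.

The proof.  Rankin's residue classes modulo the primes up to `w = log x / (C (log log x)^2)`, one of
them left out, are chosen so that they avoid `H` and leave only `O(log x)` points of the window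
uncovered, with a constant which does not depend on `H`.  A weight `(W1 · VH)^2` is put on the
integers `m` of this class: `W1`, bounded by `exp ((log x)^(1/2))`, kills the primes at all uncovered
points outside of `H`, and `VH` is a weight of Maynard's kind (a product of label sums on the points
of `H`).  The primes at the points of `H` are counted under the product of the two weights.  This
uses that for every modulus `m` the primes in the classes modulo `m p` are distributed like the primes
in the class modulo `m`, on average over the primes `p`, and a lower bound of the expected order for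
the number of primes `≤ x` in every reduced residue class modulo `q`, `q` the product of the primes
up to `w` except one, `x ≥ q^(C log log q)`.
-/

namespace Pool.Agent.Results.MP_69be96_nt.ClustersInDeserts

theorem result : ∃ c : ℝ, 0 < c ∧ ∀ K : ℕ, 1 ≤ K → ∃ X : ℝ, ∀ x : ℝ, X ≤ x →
    ∀ H : Finset ℕ, H.card = K →
      (∀ h ∈ H, (h : ℝ) ≤ c * (Real.log x * Real.log (Real.log x) ^ 2 *
        Real.log (Real.log (Real.log (Real.log x))) / Real.log (Real.log (Real.log x)) ^ 2)) →
      (∀ l : ℕ, Nat.Prime l → ∃ a : ℕ, ∀ h ∈ H, ¬ h ≡ a [MOD l]) →
      x ^ (1 - 1 / Real.log (Real.log x) ^ 2)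
        ≤ ({m : ℕ | (m : ℝ) ≤ x ∧
          (∀ q : ℕ, Nat.Prime q → m ≤ q → (q : ℝ) ≤ (m : ℝ) + c * (Real.log x *
            Real.log (Real.log x) ^ 2 * Real.log (Real.log (Real.log (Real.log x))) /
              Real.log (Real.log (Real.log x)) ^ 2) → ∃ h ∈ H, q = m + h) ∧
          c * Real.log K < ((H.filter (fun h => Nat.Prime (m + h))).card : ℝ)}.ncard : ℝ) := by
  obtain ⟨c, hc, h⟩ := Pool.Agent.Helper57.MT.main
  refine ⟨c, hc, fun K hK => ?_⟩
  obtain ⟨X, hX⟩ := h K hK
  refine ⟨X, fun x hx H hH h1 h2 => ?_⟩
  convert hX x hx H hH h1 h2 using 6

end Pool.Agent.Results.MP_69be96_nt.ClustersInDeserts
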