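import Pool.Agent.Helper7.PX.Main

/-!
# Prime numbers in prescribed blocks, at the scale of the mean gap

Problem MP_69be96_nt, for the actual primes and without any hypothesis.

There are absolute constants `c > 0` and `C` such that for all integers `M ≥ 1` and reals `R > 0`,
`ε > 0` there are `A`, `X` and `δ > 0` such that for all real `x ≥ X` and `0 ≤ L ≤ c log log x` and
EVERY set `H` of `M` integers in `[0, L log x]` with mutual distances at least `ε log x`, at least
`x exp (-A exp (C L))` integers `n ≤ x` have all of the following properties:

* every prime of `(n, n + (L + ε) log x]` lies in one of the `M` blocks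
  `(n + h, n + h + ε log x]`, `h ∈ H`;
* at least `c min(1, R) M` of the blocks contain at least `R` primes each;
* no block contains more than `max(1, C R √M)` primes;
* any two primes of `(n, n + (L + ε) log x]` differ by at least `δ log x`.

For bounded `L` this is a positive proportion of all `n`.  The number of primes of a block is the
number of the `q` in `Finset.Ioc (n + h) (n + h + ⌊ε log x⌋₊)` which are prime.

Special cases.  `R = C' k/M`, `M ≥ C'' k²`: more than `k` primes, isolated, in different blocks, so
for blocks far from each other `k` consecutive gaps `≥ L log x` (also with prescribed growth).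
`M = 1`, `R = k`: all primes of a window of length `L log x` are at least `k` primes in a prescribed
short block, so that clusters of at least `k` primes are isolated by two gaps `≥ L log x`; by moving
the window (the primes have distances `≥ δ log x`) there are exactly `k` primes in it.
`R = 1`, `M ≥ 2/c`: consecutive primes in two different blocks, so limit points of the normalised
gaps.

Proof: a sieve weight (a truncated product, over the integers of the window without prime factor up
to `(log x)/20`, of `1 - S` outside the blocks and `1 + t S` in the blocks, `S` a divisor sum which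
is `1` at primes) kills the primes outside the blocks and increases the number of the primes in the
blocks by the factor `(1 + t)²`, in a positive proportion of the residue classes modulo the product
of the primes up to `(log x)/20`; then first and second moments of the numbers of primes in the
blocks.
-/

open scoped Classical

namespace Pool.Agent.Results.MP_69be96_nt.PrescribedBlocks

theorem result : ∃ c C : ℝ, 0 < c ∧ ∀ (M : ℕ) (R ε : ℝ), 1 ≤ M → 0 < R → 0 < ε →
    ∃ A X δ : ℝ, 0 < δ ∧ ∀ x : ℝ, X ≤ x → ∀ L : ℝ, 0 ≤ L → L ≤ c * Real.log (Real.log x) →
    ∀ H : Finset ℕ, H.card = M → (∀ h ∈ H, (h : ℝ) ≤ L * Real.log x) →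
    (∀ h ∈ H, ∀ h' ∈ H, h < h' → (h : ℝ) + ε * Real.log x ≤ h') →
    x * Real.exp (-(A * Real.exp (C * L))) ≤ ({n : ℕ | (n : ℝ) ≤ x ∧
      (∀ q : ℕ, q.Prime → n < q → (q : ℝ) ≤ n + (L + ε) * Real.log x →
        ∃ h ∈ H, n + h < q ∧ (q : ℝ) ≤ n + h + ε * Real.log x) ∧
      c * (min 1 R * M) ≤ ((H.filter (fun h => R ≤
        (((Finset.Ioc (n + h) (n + h + ⌊ε * Real.log x⌋₊)).filter Nat.Prime).card : ℝ))).card : ℝ) ∧
      (∀ h ∈ H, (((Finset.Ioc (n + h) (n + h + ⌊ε * Real.log x⌋₊)).filter Nat.Prime).card : ℝ)
        ≤ max 1 (C * (R * √(M : ℝ)))) ∧
      ∀ q q' : ℕ, q.Prime → q'.Prime → n < q → q < q' → (q' : ℝ) ≤ n + (L + ε) * Real.log x →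
        δ * Real.log x ≤ (q' : ℝ) - q}.ncard : ℝ) :=
  Pool.Agent.Helper7.PX.mZU

end Pool.Agent.Results.MP_69be96_nt.PrescribedBlocks
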