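import Mathlib
import Pool.Agent.Helper88.SK.Main

/-!
# Every set of `c log x log log x` integers has many translates without primes

Problem MP_69be96_nt, for the actual primes and without any hypothesis.  Write `p m` for the
`m`-th prime (`Nat.nth Nat.Prime m`, counted from `0`) and `g m = p (m + 1) - p m - 1` for the
number of composites between `p m` and the next prime.

There are `c > 0` and `C` with `c C ≤ 1/2` such that for every `k` there are `A` and `X` with the
following property.  For all real `x ≥ X`, all real `u` with `|u| ≤ x^k`, all
`0 ≤ L ≤ c log log x` and EVERY set `S` of at most `L log x` integers in `[-x^k, x^k]`, at least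
`x exp (-A exp (C L))` of the integers `n ∈ (u, u + x]` are such that no `n + s` with `s ∈ S` is a
prime; and hence, whenever all the integers of an interval `[a, b]` with `n + a ≥ 3` belong to `S`,
the integers `n + a, .., n + b` lie between two consecutive primes `p m` and `p (m + 1)`, so that
`g m ≥ b - a + 1`.

For `S = {1, .., h}` these are large gaps between primes, in every interval `(u, u + u^ε]`; for a
union of intervals at arbitrary places these are large gaps at prescribed distances from `n`,
simultaneously; for `S = {q, 2 q, .., h q}` these are classes modulo `q` without small primes; but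
`S` needs no structure.  (With `S = {-b : b ∈ B, b ≤ u + x}`: a set `B` of natural numbers such
that every integer of `(u, u + x]` is of the form `p + b`, `p` prime, `b ∈ B`, has at least
`c log x log log x` elements up to `u + x`.)

The residue class of `n` modulo the product of the primes up to `(log x) / 20` is chosen by
averaging over all classes (no covering of `S` by residue classes is available for general `S`);
then a sieve weight, the part of small total degree of the product over the remaining points `s` of
`1 - R (n + s)`, with `R` a divisor sum which is `1` at the primes and whose mass is spread evenly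
over many scales, kills the remaining primes.  Two points of `S` may be congruent modulo a prime
`> log x`; such primes are removed from the labels of the weight, or their exact local density
is used.
-/

namespace Pool.Agent.Results.MP_69be96_nt.PrimeFreeTranslates

theorem result : ∃ c C : ℝ, 0 < c ∧ c * C ≤ 1 / 2 ∧ ∀ k : ℕ, ∃ A X : ℝ, ∀ x : ℝ, X ≤ x →
    ∀ u : ℝ, |u| ≤ x ^ k → ∀ L : ℝ, 0 ≤ L → L ≤ c * Real.log (Real.log x) → ∀ S : Finset ℤ,
    (∀ s ∈ S, |(s : ℝ)| ≤ x ^ k) → (S.card : ℝ) ≤ L * Real.log x →
    x * Real.exp (-(A * Real.exp (C * L)))
      ≤ ({n : ℤ | u < n ∧ (n : ℝ) ≤ u + x ∧ (∀ s ∈ S, ∀ p : ℕ, p.Prime → n + s ≠ p) ∧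
          ∀ a b : ℤ, a ≤ b → 3 ≤ n + a → (∀ s : ℤ, a ≤ s → s ≤ b → s ∈ S) →
            ∃ m : ℕ, (Nat.nth Nat.Prime m : ℤ) < n + a ∧
              n + b < Nat.nth Nat.Prime (m + 1)}.ncard : ℝ) :=
  Pool.Agent.Helper88.SK.main

end Pool.Agent.Results.MP_69be96_nt.PrimeFreeTranslates
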