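import Mathlib
import Pool.Agent.Helper88.GM.Main

/-!
# A record gap between consecutive primes in every interval

Problem MP_69be96_nt, for the actual primes and without any hypothesis.  Write `p n` for the
`n`-th prime (`Nat.nth Nat.Prime n`, counted from `0`) and `g n = p (n + 1) - p n - 1` for the
number of composites between `p n` and the next prime.

There are `c > 0` and `H` such that for all real `h ≥ H` and `u ≥ 0` the interval `[u, u + h]`
meets a large gap: some `n` with `p n ≤ u + h` and `p (n + 1) > u` satisfies
`g n ≥ c (log h) (log_2 h)^2 (log_4 h) / (log_3 h)^2`, where `log_j` is the `j`-fold iterated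
logarithm.  For `u = 0` this is a lower bound for the largest gap up to `h`, larger than the
earlier bounds by an unbounded factor.

The run of composites is chosen in two steps.  Rankin's choice of one residue class for each prime
`p ≤ (log h) / 20` leaves at most `c' log h` of its points; then a sieve weight, the part of small
total degree of the product over these points of `1 - S`, with `S` a divisor sum which is `1` at
the primes and whose mass is spread evenly over many scales, shows that in every interval of length
`h` there is a translate in which all remaining points are composite.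
-/

namespace Pool.Agent.Results.MP_69be96_nt.ShortIntervalRecord

theorem result : ∃ c : ℝ, 0 < c ∧ ∃ H : ℝ, ∀ h : ℝ, H ≤ h → ∀ u : ℝ, 0 ≤ u → ∃ n : ℕ,
    (Nat.nth Nat.Prime n : ℝ) ≤ u + h ∧ u < Nat.nth Nat.Prime (n + 1) ∧
    c * (Real.log h * Real.log (Real.log h) ^ 2 *
        Real.log (Real.log (Real.log (Real.log h))) / Real.log (Real.log (Real.log h)) ^ 2)
      ≤ (Nat.nth Nat.Prime (n + 1) : ℝ) - Nat.nth Nat.Prime n - 1 :=
  Pool.Agent.Helper88.GM.mainSA

end Pool.Agent.Results.MP_69be96_nt.ShortIntervalRecord
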